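import Pool.Agent.Lib.helper8.BetaK

set_option autoImplicit false
open Filter
open Pool.Agent.Lib.helper8.BetaK

namespace Pool.Agent.H.MP_661cb5_co

attribute [local instance] Ultrafilter.add Ultrafilter.addSemigroup

def fm (u v : ℤ) (x : ℤ × ℤ) : ℤ := u * x.1 + v * x.2

lemma fm_add (u v : ℤ) (x y : ℤ × ℤ) : fm u v (x + y) = fm u v x + fm u v y := by
  simp only [fm, Prod.fst_add, Prod.snd_add]; ring

def F (u v : ℤ) (w : Ultrafilter (ℤ × ℤ)) : Ultrafilter ℤ := w.map (fm u v)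

lemma F_add (u v : ℤ) (w w' : Ultrafilter (ℤ × ℤ)) : F u v (w + w') = F u v w + F u v w' :=
  map_add _ (fm_add u v) _ _

def Lt (e : Ultrafilter ℤ) (a : ℤ) : Ultrafilter (ℤ × ℤ) := e.map fun z => (a * z, z)

lemma F_Lt (e : Ultrafilter ℤ) (u v a k : ℤ) (h : u * a + v = k) : F u v (Lt e a) = sc k e := by
  unfold F Lt sc
  rw [Ultrafilter.map_map]
  congr 1
  funext z
  simp only [Function.comp, fm, ← h]; ring

lemma closed_F (u v : ℤ) (p : Ultrafilter ℤ) : IsClosed {w | F u v w = p} :=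
  isClosed_eq (continuous_map _) continuous_const

theorem exists_omega : ∃ (w : Ultrafilter (ℤ × ℤ)),
    Pos (F 1 0 w) ∧ F 0 1 w + F 1 0 w = F 1 0 w ∧
    F 0 2 w + (F 1 1 w + F 1 0 w) = F 1 1 w + F 1 0 w ∧
    F (-1) 2 w + (F 1 1 w + F 1 0 w) = F 1 0 w := by
  obtain ⟨e, he, hp⟩ := exists_minId_pos
  have m1 : MinId (sc 1 e) := he.scale one_ne_zero
  have m2 : MinId (sc 2 e) := he.scale two_ne_zero
  have m3 : MinId (sc 3 e) := he.scale three_ne_zero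
  have p2 : Pos (sc 2 e) := hp.scale two_pos
  -- values of the forms on letters
  have o_ : ∀ a, F 0 1 (Lt e a) = sc 1 e := fun a => F_Lt e _ _ _ _ (by ring)
  have i_ : ∀ a, F 0 2 (Lt e a) = sc 2 e := fun a => F_Lt e _ _ _ _ (by ring)
  have n1 : F (-1) 2 (Lt e 1) = sc 1 e := F_Lt e _ _ _ _ (by ring)
  have n0 : F (-1) 2 (Lt e 0) = sc 2 e := F_Lt e _ _ _ _ (by ring)
  have nm : F (-1) 2 (Lt e (-1)) = sc 3 e := F_Lt e _ _ _ _ (by ring)
  have n2 : F (-1) 2 (Lt e 2) = pure 0 := (F_Lt e _ _ _ _ (by ring)).trans (sc_zero e)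
  have c1 : F 1 1 (Lt e 1) = sc 2 e := F_Lt e _ _ _ _ (by ring)
  have c0 : F 1 1 (Lt e 0) = sc 1 e := F_Lt e _ _ _ _ (by ring)
  have cm : F 1 1 (Lt e (-1)) = pure 0 := (F_Lt e _ _ _ _ (by ring)).trans (sc_zero e)
  have c2 : F 1 1 (Lt e 2) = sc 3 e := F_Lt e _ _ _ _ (by ring)
  have t1 : F 1 0 (Lt e 1) = sc 1 e := F_Lt e _ _ _ _ (by ring)
  have t0 : F 1 0 (Lt e 0) = pure 0 := (F_Lt e _ _ _ _ (by ring)).trans (sc_zero e)
  have t2 : F 1 0 (Lt e 2) = sc 2 e := F_Lt e _ _ _ _ (by ring)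
  generalize sc 1 e = e1 at *
  generalize sc 2 e = e2 at *
  generalize sc 3 e = e3 at *
  have i1 := m1.1
  have i2 := m2.1
  have j1 : ∀ x, e1 + (e1 + x) = e1 + x := fun x => by rw [← add_assoc, i1]
  have j2 : ∀ x, e2 + (e2 + x) = e2 + x := fun x => by rw [← add_assoc, i2]
  obtain ⟨wA, -, ⟨hA1, hA2, hA3⟩, hA⟩ := exists_inv
    {w | F 0 1 w = e1 ∧ F 0 2 w = e2 ∧ F 1 1 w = e2}
    ((closed_F _ _ _).inter ((closed_F _ _ _).inter (closed_F _ _ _)))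
    (fun x hx y hy => ⟨by rw [F_add, hx.1, hy.1, i1], by rw [F_add, hx.2.1, hy.2.1, i2],
      by rw [F_add, hx.2.2, hy.2.2, i2]⟩)
    (fm (-1) 2) (fm_add _ _) m1 (we := Lt e 1) (wa := Lt e 1 + Lt e (-1) + Lt e 1)
    ⟨o_ _, i_ _, c1⟩
    ⟨by simp only [F_add, o_, i1], by simp only [F_add, i_, i2],
      by simp only [F_add, c1, cm, add_zero', i2]⟩ n1
    (by
      show F (-1) 2 _ + e1 = F (-1) 2 _
      simp only [F_add, n1, nm, add_assoc, i1])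
  obtain ⟨wB, -, ⟨hB1, hB2, hB3⟩, hB⟩ := exists_inv
    {w | F 0 1 w = e1 ∧ F 0 2 w = e2 ∧ F (-1) 2 w = e1}
    ((closed_F _ _ _).inter ((closed_F _ _ _).inter (closed_F _ _ _)))
    (fun x hx y hy => ⟨by rw [F_add, hx.1, hy.1, i1], by rw [F_add, hx.2.1, hy.2.1, i2],
      by rw [F_add, hx.2.2, hy.2.2, i1]⟩)
    (fm 1 1) (fm_add _ _) m2 (we := Lt e 1) (wa := Lt e 1 + Lt e 2 + Lt e 1)
    ⟨o_ _, i_ _, n1⟩
    ⟨by simp only [F_add, o_, i1], by simp only [F_add, i_, i2],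
      by simp only [F_add, n1, n2, add_zero', i1]⟩ c1
    (by
      show F 1 1 _ + e2 = F 1 1 _
      simp only [F_add, c1, c2, add_assoc, i2])
  have hA' : F (-1) 2 (Lt e 1 + wA) + (e1 + e3 + e1) = e1 := by
    have : F (-1) 2 (Lt e 1 + wA) + F (-1) 2 (Lt e 1 + Lt e (-1) + Lt e 1) = e1 := hA
    simpa only [F_add (-1) 2 (Lt e 1 + Lt e (-1)), F_add (-1) 2 (Lt e 1) (Lt e (-1)), n1, nm]
      using this
  have hB' : F 1 1 (Lt e 1 + wB) + (e2 + e3 + e2) = e2 := by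
    have : F 1 1 (Lt e 1 + wB) + F 1 1 (Lt e 1 + Lt e 2 + Lt e 1) = e2 := hB
    simpa only [F_add 1 1 (Lt e 1 + Lt e 2), F_add 1 1 (Lt e 1) (Lt e 2), c1, c2] using this
  have tA : e1 + F 1 0 (Lt e 1 + wA) = F 1 0 (Lt e 1 + wA) := by rw [F_add, t1, j1]
  have cB : e2 + F 1 1 (Lt e 1 + wB) = F 1 1 (Lt e 1 + wB) := by rw [F_add, c1, j2]
  generalize Lt e 1 + wA = A at *
  generalize Lt e 1 + wB = B at *
  have hs : e3 + (F 1 1 B + e2) + e3 = e3 := by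
    apply m3.sandwich (e := e2)
    · rw [add_assoc, ← add_assoc e2, ← add_assoc e2, i2, hB']
    · rw [← add_assoc, cB]
    · rw [add_assoc, i2]
  have hs' : ∀ x, e3 + (F 1 1 B + (e2 + (e3 + x))) = e3 + x := fun x => by
    calc _ = e3 + (F 1 1 B + e2) + e3 + x := by simp only [add_assoc]
      _ = _ := by rw [hs]
  refine ⟨A + B + Lt e 1 + Lt e (-1) + Lt e 2 + Lt e 0, ?_, ?_, ?_, ?_⟩
  · simp only [F_add, t0, t2, add_zero']
    exact p2.add_left _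
  · simp only [F_add, hA1, hB1, o_, i1]
    simp only [← add_assoc, tA]
  · simp only [F_add, hA2, hB2, i_, i2, hA3]
    simp only [add_assoc, j2]
  · have h1 : F (-1) 2 (A + B + Lt e 1 + Lt e (-1) + Lt e 2 + Lt e 0) +
        F 1 1 (A + B + Lt e 1 + Lt e (-1) + Lt e 2 + Lt e 0) = e1 := by
      simp only [F_add, hA3, hB3, n1, nm, n2, n0, c1, cm, c2, c0, add_zero']
      simp only [add_assoc, j1, j2]
      rw [← add_assoc e2 (F 1 1 B), cB, hs']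
      simpa only [add_assoc] using hA'
    rw [← add_assoc, h1]
    simp only [F_add, ← add_assoc, tA]

theorem exists_step (C : ℤ → Prop) (w : Ultrafilter (ℤ × ℤ)) (P Q : ℤ → Prop)
    (hP : ∀ d, P d ↔ ∀ᶠ z in (F 1 0 w : Filter ℤ), C (d + z))
    (hQ : ∀ d, Q d ↔ ∀ᶠ z in ((F 1 1 w + F 1 0 w : Ultrafilter ℤ) : Filter ℤ), C (d + z))
    (h0 : Pos (F 1 0 w)) (h1 : F 0 1 w + F 1 0 w = F 1 0 w)
    (h2 : F 0 2 w + (F 1 1 w + F 1 0 w) = F 1 1 w + F 1 0 w)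
    (h3 : F (-1) 2 w + (F 1 1 w + F 1 0 w) = F 1 0 w)
    (D E : Finset ℤ) (hD : ∀ d ∈ D, P d) (hE : ∀ d ∈ E, Q d) (m : ℤ) :
    ∃ x : ℤ × ℤ, m < x.1 ∧ (∀ d ∈ D, C (d + x.1) ∧ P (d + x.2) ∧ Q (d + (2 * x.2 - x.1))) ∧
      ∀ d ∈ E, Q (d + 2 * x.2) ∧ P (d + (x.1 + x.2)) := by
  have a0 : ∀ᶠ x in (w : Filter (ℤ × ℤ)), m < fm 1 0 x := h0 m
  have a1 : ∀ᶠ x in (w : Filter (ℤ × ℤ)), ∀ d ∈ D,
      C (d + x.1) ∧ P (d + x.2) ∧ Q (d + (2 * x.2 - x.1)) := by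
    rw [eventually_all_finset]
    intro d hd
    have b0 := (hP d).1 (hD d hd)
    have b1 : ∀ᶠ x in (w : Filter (ℤ × ℤ)), C (d + fm 1 0 x) := b0
    have b2 := b0
    rw [← h1, Ultrafilter.eventually_add] at b2
    have b2' : ∀ᶠ x in (w : Filter (ℤ × ℤ)),
      ∀ᶠ z in (F 1 0 w : Filter ℤ), C (d + (fm 0 1 x + z)) := b2
    have b3 := b0
    rw [← h3, Ultrafilter.eventually_add] at b3
    have b3' : ∀ᶠ x in (w : Filter (ℤ × ℤ)),
      ∀ᶠ z in ((F 1 1 w + F 1 0 w : Ultrafilter ℤ) : Filter ℤ),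
        C (d + (fm (-1) 2 x + z)) := b3
    filter_upwards [b1, b2', b3'] with x x1 x2 x3
    refine ⟨by simpa [fm] using x1, (hP _).2 (by simpa [fm, add_assoc] using x2), (hQ _).2 ?_⟩
    filter_upwards [x3] with z hz
    convert hz using 1
    simp only [fm]; ring
  have a2 : ∀ᶠ x in (w : Filter (ℤ × ℤ)), ∀ d ∈ E, Q (d + 2 * x.2) ∧ P (d + (x.1 + x.2)) := by
    rw [eventually_all_finset]
    intro d hd
    have b0 := (hQ d).1 (hE d hd)
    have b2 := b0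
    rw [← h2, Ultrafilter.eventually_add] at b2
    have b2' : ∀ᶠ x in (w : Filter (ℤ × ℤ)),
      ∀ᶠ z in ((F 1 1 w + F 1 0 w : Ultrafilter ℤ) : Filter ℤ),
        C (d + (fm 0 2 x + z)) := b2
    have b3 := b0
    rw [Ultrafilter.eventually_add] at b3
    have b3' : ∀ᶠ x in (w : Filter (ℤ × ℤ)),
      ∀ᶠ z in (F 1 0 w : Filter ℤ), C (d + (fm 1 1 x + z)) := b3
    filter_upwards [b2', b3'] with x x2 x3
    exact ⟨(hQ _).2 (by simpa [fm, add_assoc] using x2),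
      (hP _).2 (by simpa [fm, add_assoc] using x3)⟩
  obtain ⟨x, x0, x1, x2⟩ := (a0.and (a1.and a2)).exists
  exact ⟨x, by simpa [fm] using x0, x1, x2⟩

theorem exists_seq (C P Q : ℤ → Prop) (h0 : P 0)
    (step : ∀ (D E : Finset ℤ), (∀ d ∈ D, P d) → (∀ d ∈ E, Q d) → ∀ m : ℤ,
      ∃ x : ℤ × ℤ, m < x.1 ∧ (∀ d ∈ D, C (d + x.1) ∧ P (d + x.2) ∧ Q (d + (2 * x.2 - x.1))) ∧
        ∀ d ∈ E, Q (d + 2 * x.2) ∧ P (d + (x.1 + x.2))) :
    ∃ y : ℕ → ℤ, (∀ n, 0 < y n) ∧ ∀ k : ℕ, ∀ a : ℕ → ℤ, (∀ i, a i = 1 ∨ a i = 2) → a 0 = 1 →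
      a k = 1 → C (∑ i ∈ Finset.range (k + 1), a i * y i) := by
  classical
  let S := {t : Finset ℤ × Finset ℤ × ℤ // (∀ d ∈ t.1, P d) ∧ ∀ d ∈ t.2.1, Q d}
  have h : ∀ t : S, ∃ x : ℤ × ℤ, t.1.2.2 < x.1 ∧
      (∀ d ∈ t.1.1, C (d + x.1) ∧ P (d + x.2) ∧ Q (d + (2 * x.2 - x.1))) ∧
        ∀ d ∈ t.1.2.1, Q (d + 2 * x.2) ∧ P (d + (x.1 + x.2)) :=
    fun t => step _ _ t.2.1 t.2.2 _
  choose x hx using h
  let nx : S → S := fun t =>
    ⟨(t.1.1.image (· + (x t).2) ∪ t.1.2.1.image (· + ((x t).1 + (x t).2)),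
      t.1.1.image (· + (2 * (x t).2 - (x t).1)) ∪ t.1.2.1.image (· + 2 * (x t).2),
      (x t).1 - (x t).2), by
        constructor
        · intro d hd
          simp only [Finset.mem_union, Finset.mem_image] at hd
          rcases hd with ⟨d', h', rfl⟩ | ⟨d', h', rfl⟩
          · exact ((hx t).2.1 d' h').2.1
          · exact ((hx t).2.2 d' h').2
        · intro d hd
          simp only [Finset.mem_union, Finset.mem_image] at hd
          rcases hd with ⟨d', h', rfl⟩ | ⟨d', h', rfl⟩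
          · exact ((hx t).2.1 d' h').2.2
          · exact ((hx t).2.2 d' h').1⟩
  let g : ℕ → S := fun n => nx^[n] ⟨({0}, ∅, 0), by simpa using h0⟩
  have hg : ∀ n, g (n + 1) = nx (g n) := fun n => Function.iterate_succ_apply' nx n _
  refine ⟨fun n => (x (g n)).1 - (g n).1.2.2, fun n => sub_pos.2 (hx _).1, ?_⟩
  intro k a ha ha0 hak
  have key : ∀ n, (a n = 1 → ∑ i ∈ Finset.range n, a i * ((x (g i)).1 - (g i).1.2.2)
        - (g n).1.2.2 ∈ (g n).1.1) ∧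
      (a n = 2 → ∑ i ∈ Finset.range n, a i * ((x (g i)).1 - (g i).1.2.2)
        - 2 * (g n).1.2.2 ∈ (g n).1.2.1) := by
    intro n
    induction n with
    | zero =>
      refine ⟨fun _ => ?_, fun h => by omega⟩
      simp [g]
    | succ n ih =>
      rw [Finset.sum_range_succ, hg]
      simp only [nx, Finset.mem_union, Finset.mem_image]
      rcases ha n with h | h
      · refine ⟨fun _ => Or.inl ⟨_, ih.1 h, ?_⟩, fun _ => Or.inl ⟨_, ih.1 h, ?_⟩⟩ <;>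
          rw [h] <;> ring
      · refine ⟨fun _ => Or.inr ⟨_, ih.2 h, ?_⟩, fun _ => Or.inr ⟨_, ih.2 h, ?_⟩⟩ <;>
          rw [h] <;> ring
  have := ((hx (g k)).2.1 _ ((key k).1 hak)).1
  rw [Finset.sum_range_succ, hak]
  convert this using 1
  ring

end Pool.Agent.H.MP_661cb5_co
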